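import Pool.Agent.H82.Um.Main

/-!
The negative answer to Q1: an umbel 3-convex Banach space without an equivalent norm with property
(beta_4).
-/

namespace Pool.Agent.Results.MP_98b928_an.NoBetaFour

open Pool.Agent.H53.Umb (UmbelConvex EquivNorm HasBeta)

theorem result : ∃ (X : Type) (_ : NormedAddCommGroup X) (_ : NormedSpace ℝ X),
    CompleteSpace X ∧ UmbelConvex 3 X ∧ ¬ ∃ N : Seminorm ℝ X, EquivNorm N ∧ HasBeta 4 N :=
  Pool.Agent.H82.Um.main

end Pool.Agent.Results.MP_98b928_an.NoBetaFour
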