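import Pool.Agent.H53.Umb.Main

/-!
The separable case of Q1: a separable umbel p-convex Banach space, 1 < p, has for every q > p an
equivalent norm with property (beta_q).
-/

namespace Pool.Agent.Results.MP_98b928_an.SeparableBeta

open Pool.Agent.H53.Umb

theorem result (X : Type*) [NormedAddCommGroup X] [NormedSpace ℝ X] [CompleteSpace X]
    [TopologicalSpace.SeparableSpace X] (p q : ℝ) (hp : 1 < p) (hpq : p < q)
    (hX : UmbelConvex p X) :
    ∃ N : Seminorm ℝ X, EquivNorm N ∧ HasBeta q N :=
  main_separable hp hpq hX

end Pool.Agent.Results.MP_98b928_an.SeparableBeta
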